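import Mathlib

/-!
# Integer `3 × 3` matrices with unimodular entrywise powers: the complete classification

We determine all integer `3 × 3` matrices `A` for which `A`, `A^{∘2}` and `A^{∘3}` (entrywise
powers) all have determinant `1` or `-1`.  Up to permutations of the rows, permutations of the
columns and sign changes of rows they are the unitriangular matrices and the matrices
`[1 a 0; bc 1 b; c 0 1]`.  In particular all of them have a zero entry, and all their entrywise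
powers have determinant `1` or `-1`.
-/

set_option autoImplicit false

namespace Pool.Agent.Results.MP_0f7e3e_nt.Classification

/-- `A^{∘k}`, the matrix of the entrywise `k`-th powers. -/
def ePow (A : Matrix (Fin 3) (Fin 3) ℤ) (k : ℕ) : Matrix (Fin 3) (Fin 3) ℤ := A.map (· ^ k)

/-- The two families of normal forms: upper triangular matrices with unit diagonal, and the
matrices with the rows `(1, a, 0)`, `(b c, 1, b)`, `(c, 0, 1)`. -/
def Std (B : Matrix (Fin 3) (Fin 3) ℤ) : Prop :=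
  ∃ a b c : ℤ, B = !![1, a, b; 0, 1, c; 0, 0, 1] ∨ B = !![1, a, 0; b * c, 1, b; c, 0, 1]

/-- `B` arises from `A` by a permutation of the rows, a permutation of the columns and sign
changes of some rows. -/
def Similar (A B : Matrix (Fin 3) (Fin 3) ℤ) : Prop :=
  ∃ σ τ : Equiv.Perm (Fin 3), ∃ r : Fin 3 → ℤ, (∀ i, r i = 1 ∨ r i = -1) ∧
    ∀ i j, B i j = r i * A (σ i) (τ j)

/-- The integer `x` is `1` or `-1`. -/
def PM (x : ℤ) : Prop := x = 1 ∨ x = -1

lemma Similar.refl (A : Matrix (Fin 3) (Fin 3) ℤ) : Similar A A :=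
  ⟨1, 1, fun _ => 1, fun _ => Or.inl rfl, fun i j => by simp⟩

lemma Similar.trans {A B C : Matrix (Fin 3) (Fin 3) ℤ} (h1 : Similar A B) (h2 : Similar B C) :
    Similar A C := by
  obtain ⟨σ, τ, r, hr, h⟩ := h1
  obtain ⟨σ', τ', r', hr', h'⟩ := h2
  refine ⟨σ'.trans σ, τ'.trans τ, fun i => r' i * r (σ' i), fun i => ?_, fun i j => ?_⟩
  · rcases hr' i with h1 | h1 <;> rcases hr (σ' i) with h2 | h2 <;> simp [h1, h2]
  · rw [h', h]
    simp [mul_assoc]

/-- The determinants of the entrywise powers of similar matrices. -/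
lemma det_similar {A B : Matrix (Fin 3) (Fin 3) ℤ} (σ τ : Equiv.Perm (Fin 3)) (r : Fin 3 → ℤ)
    (h : ∀ i j, B i j = r i * A (σ i) (τ j)) (k : ℕ) :
    (ePow B k).det = (∏ i, r i) ^ k *
      (((Equiv.Perm.sign σ : ℤ) * (Equiv.Perm.sign τ : ℤ)) * (ePow A k).det) := by
  have e : ePow B k = Matrix.of fun i j => (r i ^ k) * ((ePow A k).submatrix σ τ) i j := by
    ext i j
    simp [ePow, h, mul_pow]
  rw [e, Matrix.det_mul_column, Finset.prod_pow]
  congr 1
  have e2 : (ePow A k).submatrix σ τ = ((ePow A k).submatrix σ id).submatrix id τ := by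
    ext i j
    simp
  rw [e2, Matrix.det_permute', Matrix.det_permute]
  simp only [Int.cast_id]
  ring

lemma pm_prod (r : Fin 3 → ℤ) (hr : ∀ i, r i = 1 ∨ r i = -1) : PM (∏ i, r i) := by
  rw [Fin.prod_univ_three]
  rcases hr 0 with h0 | h0 <;> rcases hr 1 with h1 | h1 <;> rcases hr 2 with h2 | h2 <;>
    simp [h0, h1, h2, PM]

lemma pm_sign (σ : Equiv.Perm (Fin 3)) : PM (Equiv.Perm.sign σ : ℤ) := by
  rcases Int.units_eq_one_or (Equiv.Perm.sign σ) with h | h <;> simp [h, PM]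

lemma PM.mul {x y : ℤ} (hx : PM x) (hy : PM y) : PM (x * y) := by
  rcases hx with rfl | rfl <;> rcases hy with rfl | rfl <;> simp [PM]

lemma PM.pow {x : ℤ} (hx : PM x) (k : ℕ) : PM (x ^ k) := by
  induction k with
  | zero => exact Or.inl (pow_zero _)
  | succ k ih => rw [pow_succ]; exact ih.mul hx

lemma PM.sq {x : ℤ} (hx : PM x) : x * x = 1 := by
  rcases hx with rfl | rfl <;> rfl

lemma Similar.symm {A B : Matrix (Fin 3) (Fin 3) ℤ} (h1 : Similar A B) : Similar B A := by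
  obtain ⟨σ, τ, r, hr, h⟩ := h1
  refine ⟨σ.symm, τ.symm, fun i => r (σ.symm i), fun i => hr _, fun i j => ?_⟩
  rw [h, ← mul_assoc, PM.sq (hr _)]
  simp

/-- The determinants of the entrywise powers of the normal forms. -/
lemma det_std {B : Matrix (Fin 3) (Fin 3) ℤ} (h : Std B) (k : ℕ) (hk : 1 ≤ k) :
    (ePow B k).det = 1 := by
  have hk0 : k ≠ 0 := by omega
  obtain ⟨a, b, c, rfl | rfl⟩ := h
  · rw [Matrix.det_fin_three]
    simp [ePow, hk0]
  · rw [Matrix.det_fin_three]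
    simp [ePow, hk0, mul_pow]
    ring

/-- From the normal form to the determinants. -/
lemma det_of_similar {A B : Matrix (Fin 3) (Fin 3) ℤ} (h : Similar A B) (hB : Std B) :
    ∃ s t : ℤ, PM s ∧ PM t ∧ ∀ k, 1 ≤ k → (ePow A k).det = s ^ k * t := by
  obtain ⟨σ, τ, r, hr, h⟩ := h.symm
  refine ⟨∏ i, r i, (Equiv.Perm.sign σ : ℤ) * (Equiv.Perm.sign τ : ℤ), pm_prod r hr,
    (pm_sign _).mul (pm_sign _), fun k hk => ?_⟩
  rw [det_similar σ τ r h k, det_std hB k hk, mul_one]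

/-! ### The products of the Leibniz formula -/

/-- If three integers have a negative product, then the product of their successors is not
positive. -/
lemma succ_prod_nonpos (u v w : ℤ) (h : u * v * w < 0) : (u + 1) * (v + 1) * (w + 1) ≤ 0 := by
  have hu : u ≠ 0 := by rintro rfl; simp at h
  have hv : v ≠ 0 := by rintro rfl; simp at h
  have hw : w ≠ 0 := by rintro rfl; simp at h
  rcases lt_or_gt_of_ne hu with h1 | h1 <;> rcases lt_or_gt_of_ne hv with h2 | h2 <;>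
    rcases lt_or_gt_of_ne hw with h3 | h3
  · have a1 : u + 1 ≤ 0 := by omega
    have a2 : v + 1 ≤ 0 := by omega
    have a3 : w + 1 ≤ 0 := by omega
    exact mul_nonpos_of_nonneg_of_nonpos (mul_nonneg_of_nonpos_of_nonpos a1 a2) a3
  · exact absurd h (not_lt.2 (mul_pos (mul_pos_of_neg_of_neg h1 h2) h3).le)
  · exact absurd h (not_lt.2 (mul_pos_of_neg_of_neg (mul_neg_of_neg_of_pos h1 h2) h3).le)
  · have a1 : u + 1 ≤ 0 := by omega
    have a2 : 0 ≤ v + 1 := by omega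
    have a3 : 0 ≤ w + 1 := by omega
    exact mul_nonpos_of_nonpos_of_nonneg (mul_nonpos_of_nonpos_of_nonneg a1 a2) a3
  · exact absurd h (not_lt.2 (mul_pos_of_neg_of_neg (mul_neg_of_pos_of_neg h1 h2) h3).le)
  · have a1 : 0 ≤ u + 1 := by omega
    have a2 : v + 1 ≤ 0 := by omega
    have a3 : 0 ≤ w + 1 := by omega
    exact mul_nonpos_of_nonpos_of_nonneg (mul_nonpos_of_nonneg_of_nonpos a1 a2) a3
  · have a1 : 0 ≤ u + 1 := by omega
    have a2 : 0 ≤ v + 1 := by omega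
    have a3 : w + 1 ≤ 0 := by omega
    exact mul_nonpos_of_nonneg_of_nonpos (mul_nonneg a1 a2) a3
  · exact absurd h (not_lt.2 (mul_pos (mul_pos h1 h2) h3).le)

section key

variable {p1 p2 p3 q1 q2 q3 : ℤ}

/-- Newton's identities. -/
lemma newton (h1 : p1 + p2 + p3 = q1 + q2 + q3 + 1)
    (h2 : p1 ^ 2 + p2 ^ 2 + p3 ^ 2 = q1 ^ 2 + q2 ^ 2 + q3 ^ 2 + 1)
    (h3 : p1 ^ 3 + p2 ^ 3 + p3 ^ 3 = q1 ^ 3 + q2 ^ 3 + q3 ^ 3 + 1)
    (h4 : p1 * p2 * p3 = q1 * q2 * q3) :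
    p1 * p2 + p1 * p3 + p2 * p3 = q1 + q2 + q3 ∧ q1 * q2 + q1 * q3 + q2 * q3 = 0 := by
  have e2p : p1 * p2 + p1 * p3 + p2 * p3
      = (q1 * q2 + q1 * q3 + q2 * q3) + (q1 + q2 + q3) := by
    have : (p1 + p2 + p3) ^ 2 = (q1 + q2 + q3 + 1) ^ 2 := by rw [h1]
    have h : 2 * (p1 * p2 + p1 * p3 + p2 * p3)
      = 2 * ((q1 * q2 + q1 * q3 + q2 * q3) + (q1 + q2 + q3)) := by
      linear_combination this - h2
    omega
  have e2q : q1 * q2 + q1 * q3 + q2 * q3 = 0 := by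
    have hp : p1 ^ 3 + p2 ^ 3 + p3 ^ 3 = (p1 + p2 + p3) ^ 3
        - 3 * (p1 + p2 + p3) * (p1 * p2 + p1 * p3 + p2 * p3) + 3 * (p1 * p2 * p3) := by ring
    have hq : q1 ^ 3 + q2 ^ 3 + q3 ^ 3 = (q1 + q2 + q3) ^ 3
        - 3 * (q1 + q2 + q3) * (q1 * q2 + q1 * q3 + q2 * q3) + 3 * (q1 * q2 * q3) := by ring
    rw [h3, hq, h1, e2p, h4] at hp
    have : 3 * (q1 * q2 + q1 * q3 + q2 * q3) = 0 := by linear_combination hp
    omega
  exact ⟨by rw [e2p, e2q, zero_add], e2q⟩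

/-- The key step, with the two `q`'s of equal sign named. -/
lemma key_of_pos (h1 : p1 + p2 + p3 = q1 + q2 + q3 + 1)
    (e2p : p1 * p2 + p1 * p3 + p2 * p3 = q1 + q2 + q3)
    (e2q : q1 * q2 + q1 * q3 + q2 * q3 = 0)
    (h4 : p1 * p2 * p3 = q1 * q2 * q3) (hq3 : q3 ≠ 0) (hpos : 0 < q1 * q2) : False := by
  have v0 : (q3 - p1) * (q3 - p2) * (q3 - p3) = -(q1 * q2) := by
    linear_combination (-q3 ^ 2) * h1 + q3 * e2p - h4 + (1 - q3) * e2q
  have v1 : (q3 - p1 + 1) * (q3 - p2 + 1) * (q3 - p3 + 1) = q3 * (q3 + 1 - (q1 + q2)) := by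
    linear_combination (-(q3 + 1) ^ 2) * h1 + (q3 + 1) * e2p - h4 - q3 * e2q
  have hneg : (q3 - p1) * (q3 - p2) * (q3 - p3) < 0 := by rw [v0]; omega
  have hle := succ_prod_nonpos _ _ _ hneg
  rw [v1] at hle
  have hs : q3 * (q1 + q2) < 0 := by nlinarith
  rcases lt_or_gt_of_ne hq3 with h | h
  · have h5 : 0 < q1 + q2 := by
      by_contra hc
      push Not at hc
      nlinarith [mul_nonneg_of_nonpos_of_nonpos h.le hc]
    have h6 : 0 < q3 * (q3 + 1 - (q1 + q2)) := mul_pos_of_neg_of_neg h (by omega)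
    omega
  · have h5 : q1 + q2 < 0 := by
      by_contra hc
      push Not at hc
      nlinarith [mul_nonneg h.le hc]
    have h6 : 0 < q3 * (q3 + 1 - (q1 + q2)) := mul_pos h (by omega)
    omega

/-- The products of the odd permutations: two of them vanish. -/
lemma key (h1 : p1 + p2 + p3 = q1 + q2 + q3 + 1)
    (e2p : p1 * p2 + p1 * p3 + p2 * p3 = q1 + q2 + q3)
    (e2q : q1 * q2 + q1 * q3 + q2 * q3 = 0)
    (h4 : p1 * p2 * p3 = q1 * q2 * q3) :
    q1 * q2 = 0 ∧ q1 * q3 = 0 ∧ q2 * q3 = 0 ∧ p1 * p2 * p3 = 0 := by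
  have hz : q1 = 0 ∨ q2 = 0 ∨ q3 = 0 := by
    by_contra hcon
    push Not at hcon
    obtain ⟨hq1, hq2, hq3⟩ := hcon
    by_cases h12 : 0 < q1 * q2
    · exact key_of_pos h1 e2p e2q h4 hq3 h12
    by_cases h13 : 0 < q1 * q3
    · exact key_of_pos (p1 := p1) (p2 := p2) (p3 := p3) (q1 := q1) (q2 := q3) (q3 := q2) (by linarith) (by linarith)
        (by linarith) (by linarith) hq2 h13
    by_cases h23 : 0 < q2 * q3
    · exact key_of_pos (p1 := p1) (p2 := p2) (p3 := p3) (q1 := q2) (q2 := q3) (q3 := q1) (by linarith) (by linarith)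
        (by linarith) (by linarith) hq1 h23
    have a12 : q1 * q2 < 0 := lt_of_le_of_ne (not_lt.1 h12) (mul_ne_zero hq1 hq2)
    have a13 : q1 * q3 < 0 := lt_of_le_of_ne (not_lt.1 h13) (mul_ne_zero hq1 hq3)
    have a23 : q2 * q3 < 0 := lt_of_le_of_ne (not_lt.1 h23) (mul_ne_zero hq2 hq3)
    omega
  rcases hz with rfl | rfl | rfl
  · simp only [zero_mul, zero_add] at e2q h4 ⊢
    simp [e2q, h4]
  · simp only [zero_mul, mul_zero, zero_add, add_zero] at e2q h4 ⊢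
    simp [e2q, h4]
  · simp only [mul_zero, add_zero] at e2q h4 ⊢
    simp [e2q, h4]

end key

/-! ### The normal form -/

lemma std_of {B : Matrix (Fin 3) (Fin 3) ℤ} (h0 : B 0 0 = 1) (h1 : B 1 1 = 1) (h2 : B 2 2 = 1)
    (h : (B 1 0 = 0 ∧ B 2 0 = 0 ∧ B 2 1 = 0) ∨
      (B 0 2 = 0 ∧ B 2 1 = 0 ∧ B 1 0 = B 1 2 * B 2 0)) : Std B := by
  rcases h with ⟨a1, a2, a3⟩ | ⟨a1, a2, a3⟩
  · refine ⟨B 0 1, B 0 2, B 1 2, Or.inl ?_⟩
    ext i j
    fin_cases i <;> fin_cases j <;> simp [*]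
  · refine ⟨B 0 1, B 1 2, B 2 0, Or.inr ?_⟩
    ext i j
    fin_cases i <;> fin_cases j <;> simp [*]

/-- The combinatorial part: which off-diagonal entries vanish. -/
lemma comb (b c d f g h : ℤ) (h0 : b * f * g + c * d * h = c * g + b * d + f * h)
    (h1 : (b * f * g) * (c * d * h) = 0) (h2 : (f * h) * (b * d) = 0)
    (h3 : (f * h) * (c * g) = 0) (h4 : (b * d) * (c * g) = 0) :
    ((d = 0 ∧ g = 0 ∧ h = 0) ∨ (c = 0 ∧ h = 0 ∧ d = f * g)) ∨
    ((b = 0 ∧ h = 0 ∧ g = 0) ∨ (f = 0 ∧ g = 0 ∧ b = c * h)) ∨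
    ((g = 0 ∧ d = 0 ∧ f = 0) ∨ (b = 0 ∧ f = 0 ∧ g = h * d)) ∨
    ((f = 0 ∧ c = 0 ∧ b = 0) ∨ (g = 0 ∧ b = 0 ∧ f = d * c)) ∨
    ((h = 0 ∧ b = 0 ∧ c = 0) ∨ (d = 0 ∧ c = 0 ∧ h = g * b)) ∨
    ((c = 0 ∧ f = 0 ∧ d = 0) ∨ (h = 0 ∧ d = 0 ∧ c = b * f)) := by
  by_cases hb : b = 0 <;> by_cases hc : c = 0 <;> by_cases hd : d = 0 <;>
    by_cases hf : f = 0 <;> by_cases hg : g = 0 <;> by_cases hh : h = 0 <;>
    simp only [hb, hc, hd, hf, hg, hh, mul_zero, zero_mul, add_zero, zero_add, true_and,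
      and_true, false_and, and_false, or_true, true_or, mul_eq_zero, or_false, false_or,
      or_self] at h0 h1 h2 h3 h4 ⊢
  all_goals first
    | exact absurd h0.symm (mul_ne_zero hf hh)
    | exact absurd h0.symm (mul_ne_zero hc hg)
    | exact absurd h0.symm (mul_ne_zero hb hd)
    | exact mul_left_cancel₀ hc (by linear_combination -h0)
    | exact mul_right_cancel₀ hh (by linear_combination -h0)
    | exact mul_left_cancel₀ hf (by linear_combination -h0)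
    | exact mul_left_cancel₀ hb (by linear_combination -h0)
    | exact mul_right_cancel₀ hg (by linear_combination -h0)
    | exact mul_right_cancel₀ hd (by linear_combination -h0)

/-- A simultaneous permutation of the rows and of the columns. -/
lemma similar_perm (A : Matrix (Fin 3) (Fin 3) ℤ) (π : Equiv.Perm (Fin 3)) :
    Similar A (A.submatrix π π) :=
  ⟨π, π, fun _ => 1, fun _ => Or.inl rfl, fun i j => by simp⟩

/-- The case of a unit diagonal. -/
lemma exists_of_diag (B : Matrix (Fin 3) (Fin 3) ℤ) (d0 : B 0 0 = 1) (d1 : B 1 1 = 1)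
    (d2 : B 2 2 = 1) (h1 : (ePow B 1).det = 1) (h2 : (ePow B 2).det = 1)
    (h3 : (ePow B 3).det = 1) : ∃ C, Similar B C ∧ Std C := by
  rw [Matrix.det_fin_three] at h1 h2 h3
  simp only [ePow, Matrix.map_apply, d0, d1, d2, one_pow, pow_one, one_mul, mul_one] at h1 h2 h3
  obtain ⟨e2p, e2q⟩ := newton (p1 := 1) (p2 := B 0 1 * B 1 2 * B 2 0)
    (p3 := B 0 2 * B 1 0 * B 2 1) (q1 := B 1 2 * B 2 1) (q2 := B 0 1 * B 1 0)
    (q3 := B 0 2 * B 2 0) (by linear_combination h1) (by linear_combination h2)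
    (by linear_combination h3) (by ring)
  obtain ⟨z1, z2, z3, z4⟩ := key (p1 := 1) (p2 := B 0 1 * B 1 2 * B 2 0)
    (p3 := B 0 2 * B 1 0 * B 2 1) (q1 := B 1 2 * B 2 1) (q2 := B 0 1 * B 1 0)
    (q3 := B 0 2 * B 2 0) (by linear_combination h1) e2p e2q (by ring)
  rcases comb (B 0 1) (B 0 2) (B 1 0) (B 1 2) (B 2 0) (B 2 1) (by linear_combination h1)
    (by linear_combination z4) z1 z2 z3 with h | h | h | h | h | h
  · exact ⟨_, similar_perm B 1, std_of (by simpa using d0) (by simpa using d1)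
      (by simpa using d2) (by simpa using h)⟩
  · refine ⟨_, similar_perm B (Equiv.swap 0 1), std_of ?_ ?_ ?_ ?_⟩ <;>
      simp [Matrix.submatrix_apply, Equiv.swap_apply_def, *]
  · refine ⟨_, similar_perm B (Equiv.swap 1 2), std_of ?_ ?_ ?_ ?_⟩ <;>
      simp [Matrix.submatrix_apply, Equiv.swap_apply_def, *]
  · refine ⟨_, similar_perm B (Equiv.swap 0 2), std_of ?_ ?_ ?_ ?_⟩ <;>
      simp [Matrix.submatrix_apply, Equiv.swap_apply_def, *]
  · refine ⟨_, similar_perm B (finRotate 3), std_of ?_ ?_ ?_ ?_⟩ <;>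
      simp [Matrix.submatrix_apply, *]
  · have r0 : (finRotate 3).symm 0 = 2 := by decide
    have r1 : (finRotate 3).symm 1 = 0 := by decide
    have r2 : (finRotate 3).symm 2 = 1 := by decide
    refine ⟨_, similar_perm B (finRotate 3).symm, std_of ?_ ?_ ?_ ?_⟩
    · rw [Matrix.submatrix_apply, r0, d2]
    · rw [Matrix.submatrix_apply, r1, d0]
    · rw [Matrix.submatrix_apply, r2, d1]
    · simpa only [Matrix.submatrix_apply, r0, r1, r2] using h

/-- The case that the product of the diagonal is `1`. -/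
lemma exists_of_prod (A : Matrix (Fin 3) (Fin 3) ℤ) (hd : A 0 0 * A 1 1 * A 2 2 = 1)
    (h1 : (ePow A 1).det = 1) (h2 : (ePow A 2).det = 1)
    (h3 : (ePow A 3).det = 1) : ∃ C, Similar A C ∧ Std C := by
  have u2 : IsUnit (A 2 2) := isUnit_iff_exists_inv'.2 ⟨_, hd⟩
  have u1 : IsUnit (A 1 1) := isUnit_iff_exists_inv.2 ⟨A 0 0 * A 2 2, by linarith⟩
  have u0 : IsUnit (A 0 0) := isUnit_iff_exists_inv.2 ⟨A 1 1 * A 2 2, by linarith⟩
  have hr : ∀ i, A i i = 1 ∨ A i i = -1 := by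
    intro i
    fin_cases i
    · exact Int.isUnit_iff.1 u0
    · exact Int.isUnit_iff.1 u1
    · exact Int.isUnit_iff.1 u2
  have hB : ∀ i j, (Matrix.of fun i j => A i i * A i j) i j =
      (fun i => A i i) i * A ((1 : Equiv.Perm (Fin 3)) i) ((1 : Equiv.Perm (Fin 3)) j) :=
    fun i j => rfl
  have hdet : ∀ k, (ePow A k).det = 1 → (ePow (Matrix.of fun i j => A i i * A i j) k).det = 1 := by
    intro k hk
    rw [det_similar 1 1 (fun i => A i i) hB k, hk, Fin.prod_univ_three, hd]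
    simp
  have hdiag : ∀ i, (Matrix.of fun i j => A i i * A i j) i i = 1 := fun i => PM.sq (hr i)
  obtain ⟨C, hC1, hC2⟩ := exists_of_diag (Matrix.of fun i j => A i i * A i j) (hdiag 0)
    (hdiag 1) (hdiag 2) (hdet 1 h1) (hdet 2 h2) (hdet 3 h3)
  exact ⟨C, Similar.trans ⟨1, 1, fun i => A i i, hr, hB⟩ hC1, hC2⟩

/-- The case that the three determinants are `1`. -/
lemma exists_of_one (A : Matrix (Fin 3) (Fin 3) ℤ)
    (h1 : (ePow A 1).det = 1) (h2 : (ePow A 2).det = 1)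
    (h3 : (ePow A 3).det = 1) : ∃ C, Similar A C ∧ Std C := by
  have g1 := h1
  have g2 := h2
  have g3 := h3
  rw [Matrix.det_fin_three] at g1 g2 g3
  simp only [ePow, Matrix.map_apply, pow_one] at g1 g2 g3
  obtain ⟨e2p, e2q⟩ := newton (p1 := A 0 0 * A 1 1 * A 2 2) (p2 := A 0 1 * A 1 2 * A 2 0)
    (p3 := A 0 2 * A 1 0 * A 2 1) (q1 := A 0 0 * A 1 2 * A 2 1) (q2 := A 0 1 * A 1 0 * A 2 2)
    (q3 := A 0 2 * A 1 1 * A 2 0) (by linear_combination g1) (by linear_combination g2)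
    (by linear_combination g3) (by ring)
  obtain ⟨z1, z2, z3, z4⟩ := key (p1 := A 0 0 * A 1 1 * A 2 2) (p2 := A 0 1 * A 1 2 * A 2 0)
    (p3 := A 0 2 * A 1 0 * A 2 1) (q1 := A 0 0 * A 1 2 * A 2 1) (q2 := A 0 1 * A 1 0 * A 2 2)
    (q3 := A 0 2 * A 1 1 * A 2 0) (by linear_combination g1) e2p e2q (by ring)
  have hz : (1 - A 0 0 * A 1 1 * A 2 2) * (1 - A 0 1 * A 1 2 * A 2 0) *
      (1 - A 0 2 * A 1 0 * A 2 1) = 0 := by
    linear_combination e2p - g1 - z4
  have ecol : ∀ (τ : Equiv.Perm (Fin 3)), Similar A (A.submatrix id τ) := fun τ =>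
    ⟨1, τ, fun _ => 1, fun _ => Or.inl rfl, fun i j => by simp⟩
  have dcol : ∀ (τ : Equiv.Perm (Fin 3)), Equiv.Perm.sign τ = 1 → ∀ k,
      (ePow A k).det = 1 → (ePow (A.submatrix id τ) k).det = 1 := by
    intro τ hτ k hk
    rw [det_similar (A := A) (B := A.submatrix id τ) 1 τ (fun _ => 1) (fun i j => by simp) k,
      hk, hτ]
    simp
  rcases mul_eq_zero.1 hz with hz | hz
  · rcases mul_eq_zero.1 hz with hz | hz
    · exact exists_of_prod A (by linarith) h1 h2 h3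
    · have hs : Equiv.Perm.sign (finRotate 3) = 1 := by decide
      obtain ⟨C, hC1, hC2⟩ := exists_of_prod (A.submatrix id (finRotate 3))
        (by
          have r0 : (finRotate 3) 0 = 1 := by decide
          have r1 : (finRotate 3) 1 = 2 := by decide
          have r2 : (finRotate 3) 2 = 0 := by decide
          simp only [Matrix.submatrix_apply, r0, r1, r2, id]
          linarith) (dcol _ hs 1 h1) (dcol _ hs 2 h2) (dcol _ hs 3 h3)
      exact ⟨C, (ecol _).trans hC1, hC2⟩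
  · have hs : Equiv.Perm.sign (finRotate 3).symm = 1 := by decide
    obtain ⟨C, hC1, hC2⟩ := exists_of_prod (A.submatrix id (finRotate 3).symm)
      (by
        have r0 : (finRotate 3).symm 0 = 2 := by decide
        have r1 : (finRotate 3).symm 1 = 0 := by decide
        have r2 : (finRotate 3).symm 2 = 1 := by decide
        simp only [Matrix.submatrix_apply, r0, r1, r2, id]
        linarith) (dcol _ hs 1 h1) (dcol _ hs 2 h2) (dcol _ hs 3 h3)
    exact ⟨C, (ecol _).trans hC1, hC2⟩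

lemma cube_mod (x : ℤ) : ∃ m, x ^ 3 = x + 3 * m := by
  obtain ⟨y, hy⟩ : ∃ y, x = 3 * y ∨ x = 3 * y + 1 ∨ x = 3 * y + 2 := ⟨x / 3, by omega⟩
  rcases hy with rfl | rfl | rfl
  · exact ⟨9 * y ^ 3 - y, by ring⟩
  · exact ⟨9 * y ^ 3 + 9 * y ^ 2 + 2 * y, by ring⟩
  · exact ⟨9 * y ^ 3 + 18 * y ^ 2 + 11 * y + 2, by ring⟩

lemma det_mod (A : Matrix (Fin 3) (Fin 3) ℤ) : ∃ m, (ePow A 3).det = (ePow A 1).det + 3 * m := by
  rw [Matrix.det_fin_three, Matrix.det_fin_three]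
  simp only [ePow, Matrix.map_apply, pow_one]
  obtain ⟨m1, e1⟩ := cube_mod (A 0 0 * A 1 1 * A 2 2)
  obtain ⟨m2, e2⟩ := cube_mod (A 0 0 * A 1 2 * A 2 1)
  obtain ⟨m3, e3⟩ := cube_mod (A 0 1 * A 1 0 * A 2 2)
  obtain ⟨m4, e4⟩ := cube_mod (A 0 1 * A 1 2 * A 2 0)
  obtain ⟨m5, e5⟩ := cube_mod (A 0 2 * A 1 0 * A 2 1)
  obtain ⟨m6, e6⟩ := cube_mod (A 0 2 * A 1 1 * A 2 0)
  exact ⟨m1 - m2 - m3 + m4 + m5 - m6, by linear_combination e1 - e2 - e3 + e4 + e5 - e6⟩

/-- The three determinants are `1` or `-1`. -/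
lemma exists_of_pm (A : Matrix (Fin 3) (Fin 3) ℤ)
    (h1 : PM (ePow A 1).det) (h2 : PM (ePow A 2).det)
    (h3 : PM (ePow A 3).det) : ∃ C, Similar A C ∧ Std C := by
  have key2 : ∀ (σ : Equiv.Perm (Fin 3)) (e : ℤ), (e = 1 ∨ e = -1) →
      e * ((Equiv.Perm.sign σ : ℤ) * (ePow A 1).det) = 1 →
      (Equiv.Perm.sign σ : ℤ) * (ePow A 2).det = 1 →
      e * ((Equiv.Perm.sign σ : ℤ) * (ePow A 3).det) = 1 → ∃ C, Similar A C ∧ Std C := by
    intro σ e he k1 k2 k3
    have hB : ∀ i j, (Matrix.of fun i j => e * A (σ i) j) i j =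
        (fun _ => e) i * A (σ i) ((1 : Equiv.Perm (Fin 3)) j) := fun i j => rfl
    have e2 : e ^ 2 = 1 := by rcases he with rfl | rfl <;> rfl
    have hd := det_similar σ 1 (fun _ => e) hB
    simp only [Finset.prod_const, Finset.card_univ, Fintype.card_fin, Equiv.Perm.sign_one,
      Units.val_one, mul_one] at hd
    obtain ⟨C, hC1, hC2⟩ := exists_of_one (Matrix.of fun i j => e * A (σ i) j)
      (by rw [hd 1]; linear_combination k1 + (e * ((Equiv.Perm.sign σ : ℤ) * (ePow A 1).det)) * e2)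
      (by rw [hd 2]; linear_combination k2 +
            ((e ^ 4 + e ^ 2 + 1) * ((Equiv.Perm.sign σ : ℤ) * (ePow A 2).det)) * e2)
      (by rw [hd 3]; linear_combination k3 + ((e ^ 7 + e ^ 5 + e ^ 3 + e) *
            ((Equiv.Perm.sign σ : ℤ) * (ePow A 3).det)) * e2)
    exact ⟨C, Similar.trans ⟨σ, 1, fun _ => e, fun _ => he, hB⟩ hC1, hC2⟩
  obtain ⟨m, hm⟩ := det_mod A
  have hs : (Equiv.Perm.sign (Equiv.swap (0 : Fin 3) 1) : ℤ) = -1 := by decide
  rcases h1 with h1 | h1 <;> rcases h2 with h2 | h2 <;> rcases h3 with h3 | h3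
  · exact key2 1 1 (Or.inl rfl) (by simp [h1]) (by simp [h2]) (by simp [h3])
  · omega
  · exact key2 (Equiv.swap 0 1) (-1) (Or.inr rfl) (by rw [hs, h1]; rfl) (by rw [hs, h2]; rfl)
      (by rw [hs, h3]; rfl)
  · omega
  · omega
  · exact key2 1 (-1) (Or.inr rfl) (by simp [h1]) (by simp [h2]) (by simp [h3])
  · omega
  · exact key2 (Equiv.swap 0 1) 1 (Or.inl rfl) (by rw [hs, h1]; rfl) (by rw [hs, h2]; rfl)
      (by rw [hs, h3]; rfl)

lemma ePow_one (A : Matrix (Fin 3) (Fin 3) ℤ) : ePow A 1 = A := by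
  ext i j
  simp [ePow]

/-- **The classification.** For an integer `3 × 3` matrix `A` the following are equivalent:
the matrices `A`, `A^{∘2}`, `A^{∘3}` have determinants `1` or `-1`; all the matrices `A^{∘k}`,
`k ≥ 1`, have determinants `1` or `-1`; up to permutations of rows and columns and sign changes
of rows, `A` is unitriangular or is `[1 a 0; bc 1 b; c 0 1]`.  In this case there are signs `s`
and `t` with `det A^{∘k} = s^k t` for all `k ≥ 1` (so that the determinants are all `1` if the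
first and the second are), and `A` has at least two zero entries. -/
theorem result (A : Matrix (Fin 3) (Fin 3) ℤ) :
    ((PM A.det ∧ PM (ePow A 2).det ∧ PM (ePow A 3).det) ↔ ∃ B, Similar A B ∧ Std B) ∧
    ((PM A.det ∧ PM (ePow A 2).det ∧ PM (ePow A 3).det) ↔ ∀ k, 1 ≤ k → PM (ePow A k).det) ∧
    ((PM A.det ∧ PM (ePow A 2).det ∧ PM (ePow A 3).det) →
      (∃ s t : ℤ, PM s ∧ PM t ∧ ∀ k, 1 ≤ k → (ePow A k).det = s ^ k * t) ∧
      ∃ i j i' j', (i, j) ≠ (i', j') ∧ A i j = 0 ∧ A i' j' = 0) := by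
  have a1 : (PM A.det ∧ PM (ePow A 2).det ∧ PM (ePow A 3).det) → ∃ B, Similar A B ∧ Std B :=
    fun h => exists_of_pm A (by rw [ePow_one]; exact h.1) h.2.1 h.2.2
  have a2 : (∃ B, Similar A B ∧ Std B) →
      ∃ s t : ℤ, PM s ∧ PM t ∧ ∀ k, 1 ≤ k → (ePow A k).det = s ^ k * t := by
    rintro ⟨B, h1, h2⟩
    exact det_of_similar h1 h2
  have a3 : (∃ s t : ℤ, PM s ∧ PM t ∧ ∀ k, 1 ≤ k → (ePow A k).det = s ^ k * t) →
      ∀ k, 1 ≤ k → PM (ePow A k).det := by
    rintro ⟨s, t, hs, ht, h⟩ k hk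
    rw [h k hk]
    exact (hs.pow k).mul ht
  have a4 : (∀ k, 1 ≤ k → PM (ePow A k).det) →
      (PM A.det ∧ PM (ePow A 2).det ∧ PM (ePow A 3).det) := fun h =>
    ⟨by simpa only [ePow_one] using h 1 le_rfl, h 2 (by norm_num), h 3 (by norm_num)⟩
  refine ⟨⟨a1, fun h => a4 (a3 (a2 h))⟩, ⟨fun h => a3 (a2 (a1 h)), a4⟩, fun h =>
    ⟨a2 (a1 h), ?_⟩⟩
  obtain ⟨B, ⟨σ, τ, r, hr, hB⟩, a, b, c, hstd⟩ := a1 h
  have hz : ∀ i j, B i j = 0 → A (σ i) (τ j) = 0 := by
    intro i j hij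
    rw [hB] at hij
    rcases hr i with h1 | h1 <;> rw [h1] at hij <;> linarith
  have hne : ∀ i j i' j' : Fin 3, (i, j) ≠ (i', j') → (σ i, τ j) ≠ (σ i', τ j') := by
    intro i j i' j' h1 h2
    rw [Prod.mk.injEq] at h2
    exact h1 (Prod.ext (σ.injective h2.1) (τ.injective h2.2))
  rcases hstd with rfl | rfl
  · exact ⟨σ 1, τ 0, σ 2, τ 1, hne _ _ _ _ (by decide), hz _ _ (by simp), hz _ _ (by simp)⟩
  · exact ⟨σ 0, τ 2, σ 2, τ 1, hne _ _ _ _ (by decide), hz _ _ (by simp), hz _ _ (by simp)⟩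

end Pool.Agent.Results.MP_0f7e3e_nt.Classification
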